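import Pool.Agent.Helper77.SD.St

/-! # Project SD, module HT: `H¹` is closed under linear combinations and translations -/

set_option autoImplicit false

namespace Pool.Agent.Helper89.SD

open Pool.Agent.Helper77.SD
open MeasureTheory Metric Set
open scoped Gradient RealInnerProductSpace ENNReal

private lemma grad_lin {d : ℕ} {w₁ w₂ : E d → ℝ} (h₁ : ContDiff ℝ 1 w₁) (h₂ : ContDiff ℝ 1 w₂)
    (a b : ℝ) (x : E d) : ∇ (fun x => a * w₁ x + b * w₂ x) x = a • ∇ w₁ x + b • ∇ w₂ x := by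
  have d₁ : DifferentiableAt ℝ w₁ x := (h₁.differentiable (by norm_num)) x
  have d₂ : DifferentiableAt ℝ w₂ x := (h₂.differentiable (by norm_num)) x
  unfold gradient
  have h : fderiv ℝ (fun x => a * w₁ x + b * w₂ x) x = a • fderiv ℝ w₁ x + b • fderiv ℝ w₂ x := by
    rw [fderiv_fun_add (d₁.const_mul a) (d₂.const_mul b), fderiv_const_mul d₁, fderiv_const_mul d₂]
  rw [h, map_add]
  simp

private lemma grad_shift {d : ℕ} (w : E d → ℝ) (v x : E d) :
    ∇ (fun x => w (x + v)) x = ∇ w (x + v) := by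
  unfold gradient
  rw [fderiv_comp_add_right]

private lemma lin {d : ℕ} {F : Type*} [NormedAddCommGroup F] [NormedSpace ℝ F] {f g w₁ w₂ : E d → F}
    (hf : L2 f) (hg : L2 g) (h₁ : L2 w₁) (h₂ : L2 w₂) (a b : ℝ) {ε : ℝ}
    (e₁ : nrm (fun x => w₁ x - f x) < ε / (|a| + |b| + 1)) (e₂ : nrm (fun x => w₂ x - g x) < ε / (|a| + |b| + 1))
    (hε : 0 < ε) :
    nrm (fun x => (a • w₁ x + b • w₂ x) - (a • f x + b • g x)) < ε := by
  have k₁ : L2 (fun x => w₁ x - f x) := h₁.sub hf
  have k₂ : L2 (fun x => w₂ x - g x) := h₂.sub hg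
  have l₁ : L2 (fun x => a • (w₁ x - f x)) := k₁.const_smul a
  have l₂ : L2 (fun x => b • (w₂ x - g x)) := k₂.const_smul b
  have h := nrm_add_le l₁ l₂
  rw [nrm_smul a, nrm_smul b] at h
  have he : (fun x => (a • w₁ x + b • w₂ x) - (a • f x + b • g x))
      = fun x => a • (w₁ x - f x) + b • (w₂ x - g x) := by
    funext x; rw [smul_sub, smul_sub]; abel
  rw [he]
  have hp : 0 < |a| + |b| + 1 := by positivity
  have hq : 0 < ε / (|a| + |b| + 1) := by positivity
  have ha : |a| * nrm (fun x => w₁ x - f x) ≤ |a| * (ε / (|a| + |b| + 1)) :=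
    mul_le_mul_of_nonneg_left e₁.le (abs_nonneg a)
  have hb : |b| * nrm (fun x => w₂ x - g x) ≤ |b| * (ε / (|a| + |b| + 1)) :=
    mul_le_mul_of_nonneg_left e₂.le (abs_nonneg b)
  have hc : (|a| + |b| + 1) * (ε / (|a| + |b| + 1)) = ε := by field_simp
  nlinarith [hc, ha, hb, hq, h]

/-- module HT -/
theorem hHT : StHT := by
  intro d f g F Γ hf hg
  refine ⟨fun a b => ⟨?_, ?_, ?_⟩, fun v => ⟨l2_shift hf.l2 v, l2_shift hf.l2G v, ?_⟩⟩
  · exact (hf.l2.const_mul a).add (hg.l2.const_mul b)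
  · exact (hf.l2G.const_smul a).add (hg.l2G.const_smul b)
  · intro ε hε
    have hp : 0 < |a| + |b| + 1 := by positivity
    have hq : 0 < ε / (|a| + |b| + 1) := by positivity
    obtain ⟨w₁, c₁, s₁, e₁, g₁⟩ := hf.app _ hq
    obtain ⟨w₂, c₂, s₂, e₂, g₂⟩ := hg.app _ hq
    refine ⟨fun x => a * w₁ x + b * w₂ x, (contDiff_const.mul c₁).add (contDiff_const.mul c₂), ?_, ?_, ?_⟩
    · exact (s₁.mul_left).add (s₂.mul_left)
    · have := lin (F := ℝ) hf.l2 hg.l2 (l2_of_compact c₁.continuous s₁) (l2_of_compact c₂.continuous s₂) a b e₁ e₂ hε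
      simpa [smul_eq_mul] using this
    · have := lin hf.l2G hg.l2G (l2_grad c₁ s₁) (l2_grad c₂ s₂) a b g₁ g₂ hε
      have he : (fun x => ∇ (fun x => a * w₁ x + b * w₂ x) x - (a • F x + b • Γ x))
          = fun x => (a • ∇ w₁ x + b • ∇ w₂ x) - (a • F x + b • Γ x) := by
        funext x; rw [grad_lin c₁ c₂]
      rw [he]
      exact this
  · intro ε hε
    obtain ⟨w, c, s, e, g'⟩ := hf.app ε hε
    refine ⟨fun x => w (x + v), c.comp (contDiff_id.add contDiff_const), ?_, ?_, ?_⟩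
    · exact s.comp_homeomorph (Homeomorph.addRight v)
    · have := nrm_shift (fun x => w x - f x) v
      rw [this]; exact e
    · have he : (fun x => ∇ (fun x => w (x + v)) x - F (x + v)) = fun x => (fun y => ∇ w y - F y) (x + v) := by
        funext x; rw [grad_shift]
      rw [he, nrm_shift (fun y => ∇ w y - F y) v]; exact g'

end Pool.Agent.Helper89.SD
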